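import Pool.Agent.Q119.KG.Better

/-!
MP_0fcc2a_co: `g(K₃, n) = e₁(n)` exactly for `n = 2, 3`, and `g(K₃, n) = e₂(n)` exactly for
`n = 2, 3`.
-/

namespace Pool.Agent.Results.MP_0fcc2a_co.CliqueConesBeaten

open SimpleGraph Finset

/-- every red/blue colouring of the edges of `K_N` (red graph `R`, blue graph `Rᶜ`) contains a red
copy of `F` or a blue copy of `G` -/
def Arrows {W₁ W₂ : Type} (F : SimpleGraph W₁) (G : SimpleGraph W₂) (N : ℕ) : Prop :=
  ∀ R : SimpleGraph (Fin N), F ⊑ R ∨ G ⊑ Rᶜ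

/-- the Ramsey number `r(F, G)` -/
noncomputable def r {W₁ W₂ : Type} (F : SimpleGraph W₁) (G : SimpleGraph W₂) : ℕ :=
  sInf {N | Arrows F G N}

/-- the complete graph `K_k` -/
def K (k : ℕ) : SimpleGraph (Fin k) := ⊤

/-- the disjoint union `K_{s_1} ∪ ... ∪ K_{s_t}` -/
def unionK {t : ℕ} (s : Fin t → ℕ) : SimpleGraph (Σ i, Fin (s i)) where
  Adj x y := x.1 = y.1 ∧ x ≠ y
  symm := ⟨fun _ _ h => ⟨h.1.symm, h.2.symm⟩⟩
  loopless := ⟨fun _ h => h.2 rfl⟩

/-- the edge numbers of the connected `K₃`-good graphs on `n` vertices -/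
def goodEdgeNumbers (n : ℕ) : Set ℕ :=
  {q | ∃ G : SimpleGraph (Fin n), G.Connected ∧ r (K 3) G = 2 * n - 1 ∧ G.edgeSet.ncard = q}

/-- `g(K₃, n)` -/
noncomputable def g (n : ℕ) : ℕ := sSup (goodEdgeNumbers n)

/-- the numbers `t * binom(s,2)` with `t, s ≥ 1` and `r(K₃, tK_s) ≤ n - 1` -/
def values₁ (n : ℕ) : Set ℕ :=
  {m | ∃ t s : ℕ, 1 ≤ t ∧ 1 ≤ s ∧ r (K 3) (unionK fun _ : Fin t => s) ≤ n - 1 ∧
    m = t * s.choose 2}

/-- the numbers `∑ binom(s_i,2)` with `t, s_i ≥ 1` and `r(K₃, K_{s_1} ∪ ... ∪ K_{s_t}) ≤ n - 1` -/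
def values₂ (n : ℕ) : Set ℕ :=
  {m | ∃ (t : ℕ) (s : Fin t → ℕ), 1 ≤ t ∧ (∀ i, 1 ≤ s i) ∧ r (K 3) (unionK s) ≤ n - 1 ∧
    m = ∑ i, (s i).choose 2}

/-- `e₁(n)` -/
noncomputable def e₁ (n : ℕ) : ℕ := n - 1 + sSup (values₁ n)

/-- `e₂(n)` -/
noncomputable def e₂ (n : ℕ) : ℕ := n - 1 + sSup (values₂ n)

/-! ### Proofs -/

open Q119.KG

lemma arrows_of_ar {W : Type} {G : SimpleGraph W} {M : ℕ} (h : Ar G M) : Arrows (K 3) G M := by
  intro R
  by_cases hR : R.CliqueFree 3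
  · exact Or.inr (h (Fin M) R (by simp) hR)
  · left
    exact ⟨(topEmbeddingOfNotCliqueFree hR).toCopy⟩

lemma r_le_iff {W : Type} [Fintype W] (G : SimpleGraph W) (M : ℕ) : r (K 3) G ≤ M ↔ Ar G M := by
  constructor
  · intro h
    have hne : {N | Arrows (K 3) G N}.Nonempty := by
      obtain ⟨M', hM'⟩ := ar_exists G
      exact ⟨M', arrows_of_ar hM'⟩
    have h1 : Arrows (K 3) G (r (K 3) G) := Nat.sInf_mem hne
    refine Ar.mono (Ar.of_exact (M := r (K 3) G) ?_) h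
    intro V _ R hV hR
    let e : Fin (r (K 3) G) ≃ V := (Fintype.equivFinOfCardEq hV).symm
    rcases h1 (R.comap e) with h2 | h2
    · exfalso
      have h3 : (R.comap e).CliqueFree 3 := cliqueFree_comap _ e.injective hR
      have h4 : (K 3).CliqueFree 3 := h3.comap h2
      exact no_triangle h4 (a := 0) (b := 1) (c := 2) (by simp [K]) (by simp [K]) (by simp [K])
    · exact contained_of_comap e e.injective h2
  · intro h
    exact Nat.sInf_le (arrows_of_ar h)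

lemma good_iff {W : Type} [Fintype W] (G : SimpleGraph W) (hG : G.Connected) :
    r (K 3) G = 2 * Fintype.card W - 1 ↔ Ar G (2 * Fintype.card W - 1) := by
  rw [← r_le_iff]
  constructor
  · exact fun h => h.le
  · intro h
    exact le_antisymm h (lower_connected hG ((r_le_iff G _).1 le_rfl))

lemma mem_good (n q : ℕ) : q ∈ goodEdgeNumbers n ↔
    ∃ G : SimpleGraph (Fin n), G.Connected ∧ Ar G (2 * n - 1) ∧ e G = q := by
  unfold goodEdgeNumbers
  constructor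
  · rintro ⟨G, h1, h2, h3⟩
    refine ⟨G, h1, ?_, h3⟩
    have := (good_iff G h1).1 (by simpa using h2)
    simpa using this
  · rintro ⟨G, h1, h2, h3⟩
    refine ⟨G, h1, ?_, h3⟩
    have := (good_iff G h1).2 (by simpa using h2)
    simpa using this

lemma e_le {n : ℕ} (G : SimpleGraph (Fin n)) : e G ≤ n.choose 2 := by
  rw [← e_top]
  exact Set.ncard_le_ncard (edgeSet_mono le_top) (Set.toFinite _)

lemma bdd_good (n : ℕ) : BddAbove (goodEdgeNumbers n) := by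
  refine ⟨n.choose 2, ?_⟩
  intro q hq
  obtain ⟨G, -, -, h⟩ := (mem_good n q).1 hq
  rw [← h]
  exact e_le G

lemma e_iso {V V' : Type} {G : SimpleGraph V} {G' : SimpleGraph V'} (f : G ≃g G') : e G = e G' :=
  Nat.card_congr f.mapEdgeSet

/-- a good graph on any vertex type gives an edge number -/
lemma mem_good_of {V : Type} [Fintype V] (G : SimpleGraph V) (n : ℕ) (hV : Fintype.card V = n)
    (hG : G.Connected) (h : Ar G (2 * n - 1)) : e G ∈ goodEdgeNumbers n := by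
  rw [mem_good]
  let f : G ≃g G.overFin hV := G.overFinIso hV
  refine ⟨G.overFin hV, (Iso.connected_iff f).1 hG, h.of_contained ⟨f.symm.toEmbedding.toCopy⟩,
    (e_iso f).symm⟩

lemma star_mem (n : ℕ) (hn : 2 ≤ n) : n - 1 ∈ goodEdgeNumbers n := by
  have h1 : Ar (⊥ : SimpleGraph (Fin (n - 1))) (2 * (n - 1) - 2 * (2 * (n - 1) + 1) / 5) := by
    intro V _ R hV _
    obtain ⟨f⟩ : Nonempty (Fin (n - 1) ↪ V) := by
      rw [Function.Embedding.nonempty_iff_card_le, Fintype.card_fin]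
      omega
    exact contained_of f f.injective (by simp)
  have h2 := h1.cone (n - 1) (by simp)
  have h3 := mem_good_of (cone (⊥ : SimpleGraph (Fin (n - 1)))) n
    (by rw [Fintype.card_option, Fintype.card_fin]; omega) (cone_connected _)
    (by convert h2 using 1; omega)
  rw [e_cone, e_bot, Fintype.card_fin] at h3
  exact h3

lemma g_mem (n : ℕ) (hn : 2 ≤ n) : g n ∈ goodEdgeNumbers n :=
  Nat.sSup_mem ⟨_, star_mem n hn⟩ (bdd_good n)

lemma better_g (n q : ℕ) (hn : 1 ≤ n) (h : Better (n - 1) q) : n - 1 + q < g n := by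
  obtain ⟨V, _, G, hV, hG, hA, hq⟩ := h
  have h1 := mem_good_of G n (by rw [hV]; omega) hG (by convert hA using 1; omega)
  exact lt_of_lt_of_le hq (le_csSup (bdd_good n) h1)

/-- an admissible family, after removing the cliques of order one -/
lemma admissible {t : ℕ} (s : Fin t → ℕ) (hs : ∀ i, 1 ≤ s i) (n : ℕ)
    (h : r (K 3) (unionK s) ≤ n - 1) :
    Ar (cliqueUnion fun i : {i // 2 ≤ s i} => s i) (n - 1) ∧
      ∑ i : {i // 2 ≤ s i}, (s i).choose 2 = ∑ i, (s i).choose 2 := by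
  rw [r_le_iff] at h
  constructor
  · refine h.of_contained ⟨⟨⟨fun x => ⟨x.1.1, x.2⟩, ?_⟩, ?_⟩⟩
    · rintro ⟨i, x⟩ ⟨j, y⟩ ⟨h1, h2⟩
      simp only at h1
      subst h1
      refine ⟨rfl, fun h3 => h2 ?_⟩
      have := eq_of_heq (Sigma.mk.inj_iff.1 h3).2
      simp only at this
      rw [this]
    · rintro ⟨⟨i, hi⟩, x⟩ ⟨⟨j, hj⟩, y⟩ h3
      obtain ⟨h4, h5⟩ := Sigma.mk.inj_iff.1 h3
      simp only at h4
      subst h4
      have := eq_of_heq h5
      simp only at this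
      rw [this]
  · classical
    rw [← Finset.sum_subtype (Finset.univ.filter fun i => 2 ≤ s i) (by simp)
      (fun i => (s i).choose 2)]
    rw [Finset.sum_filter]
    refine Finset.sum_congr rfl fun i _ => ?_
    by_cases hi : 2 ≤ s i
    · rw [if_pos hi]
    · have : s i = 1 := by have := hs i; omega
      rw [if_neg hi, this]
      rfl

lemma bdd₂ (n : ℕ) : BddAbove (values₂ n) := by
  refine ⟨(n - 1).choose 2, ?_⟩
  rintro m ⟨t, s, ht, hs, h, rfl⟩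
  rw [r_le_iff] at h
  have h1 : ∑ i, s i + 1 - 1 ≤ n - 1 := by
    refine lower_union s 1 (n - 1) le_rfl hs ?_ h
    have := Finset.single_le_sum (f := s) (fun _ _ => Nat.zero_le _) (mem_univ (⟨0, ht⟩ : Fin t))
    exact (hs _).trans this
  exact (sum_choose_le _ _).trans (Nat.choose_le_choose 2 (by omega))

lemma sub₁₂ (n : ℕ) : values₁ n ⊆ values₂ n := by
  rintro m ⟨t, s, ht, hs, h, rfl⟩
  exact ⟨t, fun _ => s, ht, fun _ => hs, h, by simp⟩

lemma zero_mem₁ (n : ℕ) (hn : 2 ≤ n) : 0 ∈ values₁ n := by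
  refine ⟨1, 1, le_rfl, le_rfl, ?_, by simp⟩
  rw [r_le_iff]
  intro V _ R hV _
  obtain ⟨f⟩ : Nonempty ((Σ _ : Fin 1, Fin 1) ↪ V) := by
    rw [Function.Embedding.nonempty_iff_card_le]
    simp only [Fintype.card_sigma, Fintype.card_fin, sum_const, card_univ, smul_eq_mul]
    omega
  refine contained_of f f.injective ?_
  rintro ⟨i, x⟩ ⟨j, y⟩ ⟨_, h2⟩
  exact absurd (by rw [Subsingleton.elim i j, Subsingleton.elim x y]) h2

lemma bdd₁ (n : ℕ) : BddAbove (values₁ n) := (bdd₂ n).mono (sub₁₂ n)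

lemma mem₁ (n : ℕ) (hn : 2 ≤ n) : sSup (values₁ n) ∈ values₁ n :=
  Nat.sSup_mem ⟨_, zero_mem₁ n hn⟩ (bdd₁ n)

lemma mem₂ (n : ℕ) (hn : 2 ≤ n) : sSup (values₂ n) ∈ values₂ n :=
  Nat.sSup_mem ⟨_, sub₁₂ n (zero_mem₁ n hn)⟩ (bdd₂ n)

lemma e₁_le_e₂ (n : ℕ) (hn : 2 ≤ n) : e₁ n ≤ e₂ n := by
  unfold e₁ e₂
  have := csSup_le_csSup (bdd₂ n) ⟨_, zero_mem₁ n hn⟩ (sub₁₂ n)
  omega

lemma e₂_lt_g (n : ℕ) (hn : 4 ≤ n) : e₂ n < g n := by
  obtain ⟨t, s, ht, hs, h, hm⟩ := mem₂ n (by omega)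
  obtain ⟨h1, h2⟩ := admissible s hs n h
  have h3 := better_main (fun i : {i // 2 ≤ s i} => s i) (n - 1) (by omega) (fun i => i.2) h1
  rw [h2, ← hm] at h3
  exact better_g n _ (by omega) h3

lemma small (n : ℕ) (hn : 2 ≤ n) (hn' : n ≤ 3) : e₂ n = n - 1 := by
  obtain ⟨t, s, ht, hs, h, hm⟩ := mem₂ n (by omega)
  obtain ⟨h1, h2⟩ := admissible s hs n h
  unfold e₂
  rw [hm, ← h2]
  by_cases hne : Nonempty {i // 2 ≤ s i}
  · obtain ⟨i⟩ := hne
    have h3 := Finset.single_le_sum (f := fun i : {i // 2 ≤ s i} => s i)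
      (fun _ _ => Nat.zero_le _) (mem_univ i)
    have h4 := i.2
    have h5 := lower_union (fun i : {i // 2 ≤ s i} => s i) 2 (n - 1) (by norm_num)
      (fun i => i.2) (by omega) h1
    omega
  · rw [not_nonempty_iff] at hne
    simp

lemma g_small (n : ℕ) (hn : 2 ≤ n) (hn' : n ≤ 3) : g n = n - 1 := by
  refine le_antisymm ?_ (le_csSup (bdd_good n) (star_mem n hn))
  obtain ⟨G, h1, h2, h3⟩ := (mem_good n _).1 (g_mem n hn)
  have h4 := e_le G
  rw [← h3]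
  have hn2 : n = 2 ∨ n = 3 := by omega
  rcases hn2 with rfl | rfl
  · exact h4
  · by_contra hcon
    have h5 : Nat.choose 3 2 = 3 := rfl
    have h6 : G = ⊤ := by
      rw [← edgeSet_inj]
      refine Set.eq_of_subset_of_ncard_le (edgeSet_mono le_top) ?_ (Set.toFinite _)
      change e (⊤ : SimpleGraph (Fin 3)) ≤ e G
      rw [e_top]
      omega
    rw [h6] at h2
    exact not_ar_three_five h2

/-- For every `n ≥ 2` the three maxima exist; `g(K₃, n) = e₁(n)` iff `n ≤ 3`, and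
`g(K₃, n) = e₂(n)` iff `n ≤ 3`. For `n ≥ 4`, `g(K₃, n) > e₂(n) ≥ e₁(n)`. -/
theorem result :
    (∀ n, 2 ≤ n → IsGreatest (goodEdgeNumbers n) (g n) ∧
      IsGreatest (values₁ n) (sSup (values₁ n)) ∧ IsGreatest (values₂ n) (sSup (values₂ n))) ∧
    (∀ n, 2 ≤ n → ((g n = e₁ n ↔ n = 2 ∨ n = 3) ∧ (g n = e₂ n ↔ n = 2 ∨ n = 3))) ∧
    (∀ n, 4 ≤ n → e₁ n ≤ e₂ n ∧ e₂ n < g n) := by
  refine ⟨fun n hn => ⟨⟨g_mem n hn, fun q hq => le_csSup (bdd_good n) hq⟩,
    ⟨mem₁ n hn, fun q hq => le_csSup (bdd₁ n) hq⟩,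
    ⟨mem₂ n hn, fun q hq => le_csSup (bdd₂ n) hq⟩⟩, fun n hn => ?_,
    fun n hn => ⟨e₁_le_e₂ n (by omega), e₂_lt_g n hn⟩⟩
  have h12 := e₁_le_e₂ n hn
  by_cases h4 : 4 ≤ n
  · have := e₂_lt_g n h4
    constructor <;> constructor <;> intro h <;> omega
  · have h1 := small n hn (by omega)
    have h2 := g_small n hn (by omega)
    have h3 : n - 1 ≤ e₁ n := Nat.le_add_right _ _
    constructor <;> constructor <;> intro h <;> omega

end Pool.Agent.Results.MP_0fcc2a_co.CliqueConesBeaten
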